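import Pool.Agent.Helper12.GM.Stmts

/-!
# Perron–Frobenius theorem with a rate for kernels comparable to rank one
-/

open scoped ENNReal Topology
open Filter

namespace Pool.Agent.Helper12.GM

theorem pf_pos {ι : Type} {K : ι → ι → ℝ} {α β : ι → ℝ} {C : ℝ}
    (hα : ∀ x, 0 < α x) (hβ : ∀ y, 0 ≤ β y)
    (hl : ∀ x y, α x * β y ≤ C * K x y) (hu : ∀ x y, K x y ≤ C * (α x * β y))
    {u u' : ι → ℝ} (h0 : ∀ y, 0 ≤ u y) (hs : ∀ x, HasSum (fun y => K x y * u y) (u' x)) (x₀ : ι) :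
    Summable (fun y => β y * u y) ∧
      ∀ x, α x * (∑' y, β y * u y) ≤ C * u' x ∧ u' x ≤ C * (α x * ∑' y, β y * u y) := by
  have hsum : Summable (fun y => β y * u y) := by
    refine Summable.of_nonneg_of_le (fun y => mul_nonneg (hβ y) (h0 y)) (fun y => ?_)
      ((hs x₀).summable.mul_left (C / α x₀))
    have h1 : β y ≤ C / α x₀ * K x₀ y := by
      rw [div_mul_eq_mul_div, le_div_iff₀ (hα x₀), mul_comm]
      exact hl x₀ y
    calc β y * u y ≤ (C / α x₀ * K x₀ y) * u y := mul_le_mul_of_nonneg_right h1 (h0 y)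
      _ = C / α x₀ * (K x₀ y * u y) := by ring
  refine ⟨hsum, fun x => ⟨?_, ?_⟩⟩
  · refine hasSum_le (fun y => ?_) (hsum.hasSum.mul_left (α x)) ((hs x).mul_left C)
    calc α x * (β y * u y) = (α x * β y) * u y := by ring
      _ ≤ (C * K x y) * u y := mul_le_mul_of_nonneg_right (hl x y) (h0 y)
      _ = C * (K x y * u y) := by ring
  · refine hasSum_le (fun y => ?_) (hs x) ((hsum.hasSum.mul_left (α x)).mul_left C)
    calc K x y * u y ≤ (C * (α x * β y)) * u y := mul_le_mul_of_nonneg_right (hu x y) (h0 y)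
      _ = C * (α x * (β y * u y)) := by ring

theorem pf_step {ι : Type} {K : ι → ι → ℝ} {α β : ι → ℝ} {C : ℝ} (hC : 1 ≤ C)
    (hα : ∀ x, 0 < α x) (hβ : ∀ y, 0 ≤ β y) {y₀ : ι} (hy₀ : 0 < β y₀)
    (hl : ∀ x y, α x * β y ≤ C * K x y) (hu : ∀ x y, K x y ≤ C * (α x * β y))
    {f g f' g' : ι → ℝ} (hg : ∀ y, 0 < g y)
    (hsg : ∀ x, HasSum (fun y => K x y * g y) (g' x))
    (hsf : ∀ x, HasSum (fun y => K x y * f y) (f' x))
    {m M : ℝ} (hm : ∀ y, m * g y ≤ f y) (hM : ∀ y, f y ≤ M * g y) :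
    ∃ m' M' : ℝ, m ≤ m' ∧ M' ≤ M ∧ M' - m' = (1 - 1 / C ^ 2) * (M - m) ∧
      (∀ y, m' * g' y ≤ f' y) ∧ (∀ y, f' y ≤ M' * g' y) := by
  have hC0 : 0 < C := by linarith
  obtain ⟨hS, hS'⟩ := pf_pos hα hβ hl hu (fun y => (hg y).le) hsg y₀
  have hs1 : ∀ x, HasSum (fun y => K x y * (f y - m * g y)) (f' x - m * g' x) := by
    intro x
    exact ((hsf x).sub ((hsg x).mul_left m)).congr_fun (fun y => by ring)
  have hs2 : ∀ x, HasSum (fun y => K x y * (M * g y - f y)) (M * g' x - f' x) := by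
    intro x
    exact (((hsg x).mul_left M).sub (hsf x)).congr_fun (fun y => by ring)
  obtain ⟨hT, hT'⟩ := pf_pos hα hβ hl hu (fun y => sub_nonneg.2 (hm y)) hs1 y₀
  obtain ⟨hU, hU'⟩ := pf_pos hα hβ hl hu (fun y => sub_nonneg.2 (hM y)) hs2 y₀
  set S := ∑' y, β y * g y with hSdef
  set s := ∑' y, β y * (f y - m * g y) with hsdef
  set s' := ∑' y, β y * (M * g y - f y) with hsdef'
  have hSpos : 0 < S := by
    refine hS.tsum_pos (fun y => mul_nonneg (hβ y) (hg y).le) y₀ (mul_pos hy₀ (hg y₀))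
  have hs0 : 0 ≤ s := tsum_nonneg fun y => mul_nonneg (hβ y) (sub_nonneg.2 (hm y))
  have hs0' : 0 ≤ s' := tsum_nonneg fun y => mul_nonneg (hβ y) (sub_nonneg.2 (hM y))
  have hadd : s + s' = (M - m) * S := by
    have h1 := (hT.hasSum.add hU.hasSum)
    have h2 := hS.hasSum.mul_left (M - m)
    exact h1.unique (h2.congr_fun (fun y => by ring))
  refine ⟨m + s / (C ^ 2 * S), M - s' / (C ^ 2 * S), ?_, ?_, ?_, ?_, ?_⟩
  · have : 0 ≤ s / (C ^ 2 * S) := by positivity
    linarith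
  · have : 0 ≤ s' / (C ^ 2 * S) := by positivity
    linarith
  · have h1 : s' = (M - m) * S - s := by linarith
    rw [h1]
    field_simp
    ring
  · intro x
    have h1 := (hS' x).2
    have h2 := (hT' x).1
    have h3 : s / (C ^ 2 * S) * g' x ≤ s / (C ^ 2 * S) * (C * (α x * S)) :=
      mul_le_mul_of_nonneg_left h1 (by positivity)
    have h4 : s / (C ^ 2 * S) * (C * (α x * S)) = α x * s / C := by
      field_simp
    have h5 : α x * s / C ≤ f' x - m * g' x := by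
      rw [div_le_iff₀ hC0]
      linarith
    rw [add_mul]
    linarith
  · intro x
    have h1 := (hS' x).2
    have h2 := (hU' x).1
    have h3 : s' / (C ^ 2 * S) * g' x ≤ s' / (C ^ 2 * S) * (C * (α x * S)) :=
      mul_le_mul_of_nonneg_left h1 (by positivity)
    have h4 : s' / (C ^ 2 * S) * (C * (α x * S)) = α x * s' / C := by
      field_simp
    have h5 : α x * s' / C ≤ M * g' x - f' x := by
      rw [div_le_iff₀ hC0]
      linarith
    rw [sub_mul]
    linarith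

/-- iterating the contraction: the ratio of two orbits converges uniformly -/
theorem pf_iter {ι : Type} {K : ι → ι → ℝ} {α β : ι → ℝ} {C : ℝ} (hC : 1 ≤ C)
    (hα : ∀ x, 0 < α x) (hβ : ∀ y, 0 ≤ β y) {y₀ : ι} (hy₀ : 0 < β y₀)
    (hl : ∀ x y, α x * β y ≤ C * K x y) (hu : ∀ x y, K x y ≤ C * (α x * β y))
    {f g : ℕ → ι → ℝ} (hg : ∀ n y, 0 < g n y)
    (hsg : ∀ n x, HasSum (fun y => K x y * g n y) (g (n + 1) x))
    (hsf : ∀ n x, HasSum (fun y => K x y * f n y) (f (n + 1) x))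
    {m M : ℝ} (hm : ∀ y, m * g 0 y ≤ f 0 y) (hM : ∀ y, f 0 y ≤ M * g 0 y)
    {θ : ℝ} (hθ : 1 - 1 / C ^ 2 ≤ θ) (hθ0 : 0 ≤ θ) (hθ1 : θ < 1) :
    ∃ r : ℝ, m ≤ r ∧ r ≤ M ∧ (∀ n x, m * g n x ≤ f n x) ∧ (∀ n x, f n x ≤ M * g n x) ∧
      ∀ n x, |f n x - r * g n x| ≤ (M - m) * θ ^ n * g n x := by
  -- valid bounds persist
  have hstep : ∀ n (a b : ℝ), (∀ y, a * g n y ≤ f n y) → (∀ y, f n y ≤ b * g n y) →
      ∃ a' b' : ℝ, a ≤ a' ∧ b' ≤ b ∧ b' - a' ≤ θ * (b - a) ∧
      (∀ y, a' * g (n + 1) y ≤ f (n + 1) y) ∧ (∀ y, f (n + 1) y ≤ b' * g (n + 1) y) := by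
    intro n a b ha hb
    obtain ⟨a', b', h1, h2, h3, h4, h5⟩ := pf_step hC hα hβ hy₀ hl hu (hg n) (hsg n) (hsf n) ha hb
    refine ⟨a', b', h1, h2, ?_, h4, h5⟩
    rw [h3]
    have hab : 0 ≤ b - a := by
      have := (ha y₀).trans (hb y₀)
      have := le_of_mul_le_mul_right this (hg n y₀)
      linarith
    exact mul_le_mul_of_nonneg_right hθ hab
  have hpers : ∀ n k (a b : ℝ), (∀ y, a * g n y ≤ f n y) → (∀ y, f n y ≤ b * g n y) →
      (∀ y, a * g (n + k) y ≤ f (n + k) y) ∧ (∀ y, f (n + k) y ≤ b * g (n + k) y) := by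
    intro n k a b ha hb
    induction k with
    | zero => exact ⟨ha, hb⟩
    | succ k ih =>
      obtain ⟨a', b', h1, h2, -, h4, h5⟩ := hstep (n + k) a b ih.1 ih.2
      refine ⟨fun y => ?_, fun y => ?_⟩
      · exact (mul_le_mul_of_nonneg_right h1 (hg (n + k + 1) y).le).trans (h4 y)
      · exact (h5 y).trans (mul_le_mul_of_nonneg_right h2 (hg (n + k + 1) y).le)
  have hex : ∀ n, ∃ a b : ℝ, m ≤ a ∧ b ≤ M ∧ b - a ≤ (M - m) * θ ^ n ∧
      (∀ y, a * g n y ≤ f n y) ∧ (∀ y, f n y ≤ b * g n y) := by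
    intro n
    induction n with
    | zero => exact ⟨m, M, le_rfl, le_rfl, by simp, hm, hM⟩
    | succ n ih =>
      obtain ⟨a, b, h1, h2, h3, h4, h5⟩ := ih
      obtain ⟨a', b', k1, k2, k3, k4, k5⟩ := hstep n a b h4 h5
      refine ⟨a', b', h1.trans k1, k2.trans h2, k3.trans ?_, k4, k5⟩
      calc θ * (b - a) ≤ θ * ((M - m) * θ ^ n) := mul_le_mul_of_nonneg_left h3 hθ0
        _ = (M - m) * θ ^ (n + 1) := by ring
  choose a b ha hb hab haf hbf using hex
  -- the ratio at `y₀`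
  set q : ℕ → ℝ := fun n => f n y₀ / g n y₀ with hq
  have hqI : ∀ n k, a n ≤ q (n + k) ∧ q (n + k) ≤ b n := by
    intro n k
    obtain ⟨h1, h2⟩ := hpers n k (a n) (b n) (haf n) (hbf n)
    exact ⟨(le_div_iff₀ (hg _ _)).2 (h1 y₀), (div_le_iff₀ (hg _ _)).2 (h2 y₀)⟩
  have hcauchy : CauchySeq q := by
    refine cauchySeq_of_le_geometric θ (M - m) hθ1 (fun n => ?_)
    have h1 := hqI n 0
    have h2 := hqI n 1
    have h3 := hab n
    rw [Real.dist_eq, abs_le]
    simp only [add_zero] at h1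
    constructor <;> linarith [h1.1, h1.2, h2.1, h2.2]
  obtain ⟨r, hr⟩ := cauchySeq_tendsto_of_complete hcauchy
  have har : ∀ n, a n ≤ r := fun n =>
    ge_of_tendsto ((tendsto_add_atTop_iff_nat n).2 hr)
      (Eventually.of_forall fun k => by rw [add_comm]; exact (hqI n k).1)
  have hbr : ∀ n, r ≤ b n := fun n =>
    le_of_tendsto ((tendsto_add_atTop_iff_nat n).2 hr)
      (Eventually.of_forall fun k => by rw [add_comm]; exact (hqI n k).2)
  refine ⟨r, (ha 0).trans (har 0), (hbr 0).trans (hb 0), fun n x => ?_, fun n x => ?_,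
    fun n x => ?_⟩
  · exact (mul_le_mul_of_nonneg_right (ha n) (hg n x).le).trans (haf n x)
  · exact (hbf n x).trans (mul_le_mul_of_nonneg_right (hb n) (hg n x).le)
  · have h1 := mul_le_mul_of_nonneg_right (har n) (hg n x).le
    have h2 := mul_le_mul_of_nonneg_right (hbr n) (hg n x).le
    have h3 := mul_le_mul_of_nonneg_right (hab n) (hg n x).le
    rw [sub_mul] at h3
    rw [abs_le]
    constructor <;> linarith [haf n x, hbf n x]

theorem pf_log {t c : ℝ} (hc : 0 < c) (hc1 : c ≤ 1) (ht : c ≤ t) : |Real.log t| ≤ |t - 1| / c := by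
  have ht0 : 0 < t := hc.trans_le ht
  rw [abs_le]
  constructor
  · have h1 := Real.one_sub_inv_le_log_of_pos ht0
    have h2 : (1 - t) / t ≤ |t - 1| / c := by
      have h3 : 1 - t ≤ |t - 1| := by rw [abs_sub_comm]; exact le_abs_self _
      calc (1 - t) / t ≤ |t - 1| / t := div_le_div_of_nonneg_right h3 ht0.le
        _ ≤ |t - 1| / c := div_le_div_of_nonneg_left (abs_nonneg _) hc ht
    have h4 : 1 - t⁻¹ = -((1 - t) / t) := by field_simp; ring
    linarith
  · have h1 := Real.log_le_sub_one_of_pos ht0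
    have h2 : t - 1 ≤ |t - 1| := le_abs_self _
    have h3 : |t - 1| ≤ |t - 1| / c := by
      rw [le_div_iff₀ hc]
      exact mul_le_of_le_one_right (abs_nonneg _) hc1
    linarith

theorem pf_exp (t : ℝ) : |Real.exp t - 1| ≤ |t| * Real.exp |t| := by
  rcases le_or_gt 0 t with h | h
  · rw [abs_of_nonneg h, abs_of_nonneg (by linarith [Real.add_one_le_exp t])]
    have h1 := Real.add_one_le_exp (-t)
    have h2 : Real.exp t * Real.exp (-t) = 1 := by rw [← Real.exp_add]; simp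
    nlinarith [Real.exp_pos t]
  · rw [abs_of_neg h, abs_of_nonpos (by linarith [Real.exp_le_one_iff.2 h.le])]
    have h1 := Real.add_one_le_exp t
    have h2 : 1 ≤ Real.exp (-t) := Real.one_le_exp (by linarith)
    nlinarith

theorem st_PF : ST_PF := by
  intro ι A ⟨α, β, C, hC, hα, hβ, hβs, ⟨y₀, hy₀⟩, hK⟩ hmul
  have hα0 : ∀ x, 0 < α x := fun x => (hα x).1
  have hC0 : 0 < C := by linarith
  have hC2 : 0 < C ^ 2 := by positivity
  have hl : ∀ x y, α x * β y ≤ C * A 1 x y := fun x y => (hK x y).1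
  have hu : ∀ x y, A 1 x y ≤ C * (α x * β y) := fun x y => (hK x y).2
  have hK0 : ∀ x y, 0 ≤ A 1 x y := by
    intro x y
    have h1 := hl x y
    have h2 := mul_nonneg (hα0 x).le (hβ y)
    by_contra h
    push Not at h
    nlinarith
  have hrec : ∀ n z x, HasSum (fun y => A 1 x y * A (n + 1) y z) (A (n + 1 + 1) x z) := by
    intro n z x
    have := hmul 1 (n + 1) le_rfl (by omega) x z
    rwa [show 1 + (n + 1) = n + 1 + 1 by omega] at this
  have hA0 : ∀ n x y, 0 ≤ A (n + 1) x y := by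
    intro n
    induction n with
    | zero => exact hK0
    | succ n ih => exact fun x y => (hrec n y x).nonneg (fun z => mul_nonneg (hK0 x z) (ih z y))
  have hcol : ∀ n x, 0 < A (n + 1) x y₀ := by
    intro n
    induction n with
    | zero =>
      intro x
      have h1 := hl x y₀
      have h2 := mul_pos (hα0 x) hy₀
      exact (mul_pos_iff_of_pos_left hC0).1 (h2.trans_le h1)
    | succ n ih =>
      intro x
      obtain ⟨h1, h2⟩ := pf_pos hα0 hβ hl hu (fun y => (ih y).le) (hrec n y₀) y₀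
      have h3 : 0 < ∑' y, β y * A (n + 1) y y₀ :=
        h1.tsum_pos (fun y => mul_nonneg (hβ y) (ih y).le) y₀ (mul_pos hy₀ (ih y₀))
      exact (mul_pos_iff_of_pos_left hC0).1 ((mul_pos (hα0 x) h3).trans_le (h2 x).1)
  -- the rate
  set θ : ℝ := 1 - 1 / (2 * C ^ 2) with hθdef
  have h12 : 1 / (2 * C ^ 2) ≤ 1 / 2 := by
    rw [div_le_div_iff_of_pos_left one_pos (by positivity) (by norm_num)]
    nlinarith
  have hθ : 1 - 1 / C ^ 2 ≤ θ := by
    have h3 : 1 / (2 * C ^ 2) ≤ 1 / C ^ 2 :=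
      one_div_le_one_div_of_le hC2 (by linarith)
    linarith
  have hθ0 : 0 < θ := by linarith
  have hθ1 : θ < 1 := by
    have : 0 < 1 / (2 * C ^ 2) := by positivity
    linarith
  -- the columns
  have hcols : ∀ y, ∃ r : ℝ, β y / (C ^ 2 * β y₀) ≤ r ∧ r ≤ C ^ 2 * β y / β y₀ ∧
      ∀ n x, |A (n + 1) x y - r * A (n + 1) x y₀| ≤ C ^ 4 * r * θ ^ n * A (n + 1) x y₀ := by
    intro y
    have hm : ∀ x, β y / (C ^ 2 * β y₀) * A (0 + 1) x y₀ ≤ A (0 + 1) x y := by
      intro x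
      have h1 := mul_le_mul_of_nonneg_left (hu x y₀)
        (show 0 ≤ β y / (C ^ 2 * β y₀) from div_nonneg (hβ y) (by positivity))
      have h2 : β y / (C ^ 2 * β y₀) * (C * (α x * β y₀)) = α x * β y / C := by
        field_simp
      have h3 : α x * β y / C ≤ A 1 x y := by
        rw [div_le_iff₀ hC0]
        linarith [hl x y]
      exact h1.trans (h2.le.trans h3)
    have hM : ∀ x, A (0 + 1) x y ≤ C ^ 2 * β y / β y₀ * A (0 + 1) x y₀ := by
      intro x
      have h1 : α x * β y₀ / C ≤ A 1 x y₀ := by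
        rw [div_le_iff₀ hC0]
        linarith [hl x y₀]
      have h2 := mul_le_mul_of_nonneg_left h1
        (show 0 ≤ C ^ 2 * β y / β y₀ from div_nonneg (mul_nonneg hC2.le (hβ y)) hy₀.le)
      have h3 : C ^ 2 * β y / β y₀ * (α x * β y₀ / C) = C * (α x * β y) := by
        field_simp
      exact (hu x y).trans (h3.symm.le.trans h2)
    obtain ⟨r, h1, h2, -, -, h5⟩ := pf_iter (f := fun n x => A (n + 1) x y)
      (g := fun n x => A (n + 1) x y₀) hC hα0 hβ hy₀ hl hu hcol (fun n => hrec n y₀)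
      (fun n => hrec n y) hm hM hθ hθ0.le hθ1
    refine ⟨r, h1, h2, fun n x => (h5 n x).trans ?_⟩
    refine mul_le_mul_of_nonneg_right ?_ (hcol n x).le
    refine mul_le_mul_of_nonneg_right ?_ (by positivity)
    have h6 : C ^ 2 * β y / β y₀ = C ^ 4 * (β y / (C ^ 2 * β y₀)) := by
      field_simp
    have h7 : 0 ≤ β y / (C ^ 2 * β y₀) := div_nonneg (hβ y) (by positivity)
    have h8 : C ^ 4 * (β y / (C ^ 2 * β y₀)) ≤ C ^ 4 * r :=
      mul_le_mul_of_nonneg_left h1 (by positivity)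
    linarith
  choose W hW1 hW2 hW3 using hcols
  have hW0 : ∀ y, 0 ≤ W y := fun y => (div_nonneg (hβ y) (by positivity)).trans (hW1 y)
  have hWy₀ : 0 < W y₀ := lt_of_lt_of_le (div_pos hy₀ (by positivity)) (hW1 y₀)
  have hWs : Summable W := by
    refine Summable.of_nonneg_of_le hW0 hW2 ?_
    have := hβs.mul_left (C ^ 2 / β y₀)
    refine this.congr fun y => ?_
    ring
  -- the growth rate
  obtain ⟨ρ, c, hc, hc1, hρ, hcρ, hlow, hgr⟩ : ∃ ρ c : ℝ, 0 < c ∧ c ≤ 1 ∧ 0 < ρ ∧ c = 1 / C ^ 4 ∧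
      (∀ n x, c * ρ * A (n + 1) x y₀ ≤ A (n + 2) x y₀) ∧
      (∀ n x, |A (n + 2) x y₀ - ρ * A (n + 1) x y₀| ≤ C ^ 4 * ρ * θ ^ n * A (n + 1) x y₀) := by
    obtain ⟨hS, hS'⟩ := pf_pos hα0 hβ hl hu (fun y => (hcol 0 y).le) (hrec 0 y₀) y₀
    set S := ∑' y, β y * A (0 + 1) y y₀ with hSdef
    have hS0 : 0 < S :=
      hS.tsum_pos (fun y => mul_nonneg (hβ y) (hcol 0 y).le) y₀ (mul_pos hy₀ (hcol 0 y₀))
    have hm : ∀ x, S / (C ^ 2 * β y₀) * A (0 + 1) x y₀ ≤ A (0 + 1 + 1) x y₀ := by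
      intro x
      have h1 := mul_le_mul_of_nonneg_left (hu x y₀)
        (show 0 ≤ S / (C ^ 2 * β y₀) from div_nonneg hS0.le (by positivity))
      have h2 : S / (C ^ 2 * β y₀) * (C * (α x * β y₀)) = α x * S / C := by
        field_simp
      have h3 : α x * S / C ≤ A (0 + 1 + 1) x y₀ := by
        rw [div_le_iff₀ hC0]
        linarith [(hS' x).1]
      exact h1.trans (h2.le.trans h3)
    have hM : ∀ x, A (0 + 1 + 1) x y₀ ≤ C ^ 2 * S / β y₀ * A (0 + 1) x y₀ := by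
      intro x
      have h1 : α x * β y₀ / C ≤ A 1 x y₀ := by
        rw [div_le_iff₀ hC0]
        linarith [hl x y₀]
      have h2 := mul_le_mul_of_nonneg_left h1
        (show 0 ≤ C ^ 2 * S / β y₀ by positivity)
      have h3 : C ^ 2 * S / β y₀ * (α x * β y₀ / C) = C * (α x * S) := by
        field_simp
      exact (hS' x).2.trans (h3.symm.le.trans h2)
    obtain ⟨r, h1, h2, h3, -, h5⟩ := pf_iter (f := fun n x => A (n + 1 + 1) x y₀)
      (g := fun n x => A (n + 1) x y₀) hC hα0 hβ hy₀ hl hu hcol (fun n => hrec n y₀)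
      (fun n => hrec (n + 1) y₀) hm hM hθ hθ0.le hθ1
    have hm0 : 0 < S / (C ^ 2 * β y₀) := by positivity
    have h6 : C ^ 2 * S / β y₀ = C ^ 4 * (S / (C ^ 2 * β y₀)) := by
      field_simp
    refine ⟨r, 1 / C ^ 4, by positivity, ?_, hm0.trans_le h1, rfl, fun n x => ?_, fun n x => ?_⟩
    · rw [div_le_one (by positivity)]
      exact one_le_pow₀ hC
    · refine le_trans ?_ (h3 n x)
      refine mul_le_mul_of_nonneg_right ?_ (hcol n x).le
      rw [h6] at h2
      rw [div_mul_eq_mul_div, one_mul, div_le_iff₀ (by positivity)]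
      linarith
    · refine (h5 n x).trans ?_
      refine mul_le_mul_of_nonneg_right ?_ (hcol n x).le
      refine mul_le_mul_of_nonneg_right ?_ (by positivity)
      have h8 : C ^ 4 * (S / (C ^ 2 * β y₀)) ≤ C ^ 4 * r :=
        mul_le_mul_of_nonneg_left h1 (by positivity)
      linarith
  -- logarithms
  set ℓ : ℕ → ι → ℝ := fun n x => Real.log (A (n + 1) x y₀ / ρ ^ (n + 1)) with hℓ
  have hℓexp : ∀ n x, A (n + 1) x y₀ = ρ ^ (n + 1) * Real.exp (ℓ n x) := by
    intro n x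
    rw [hℓ]
    simp only
    rw [Real.exp_log (div_pos (hcol n x) (by positivity))]
    field_simp
  have hd : ∀ n x, dist (ℓ n x) (ℓ (n + 1) x) ≤ C ^ 8 * θ ^ n := by
    intro n x
    set t := A (n + 2) x y₀ / (ρ * A (n + 1) x y₀) with ht
    have hden : 0 < ρ * A (n + 1) x y₀ := mul_pos hρ (hcol n x)
    have h1 : ℓ (n + 1) x - ℓ n x = Real.log t := by
      rw [hℓ, ht]
      simp only
      rw [← Real.log_div (div_pos (hcol (n + 1) x) (by positivity)).ne'
        (div_pos (hcol n x) (by positivity)).ne']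
      congr 1
      have := hcol n x
      field_simp
      ring
    have h2 : c ≤ t := by
      rw [ht, le_div_iff₀ hden]
      linarith [hlow n x]
    have h3 : |t - 1| ≤ C ^ 4 * θ ^ n := by
      have h4 : t - 1 = (A (n + 2) x y₀ - ρ * A (n + 1) x y₀) / (ρ * A (n + 1) x y₀) := by
        rw [ht, sub_div, div_self hden.ne']
      rw [h4, abs_div, abs_of_pos hden, div_le_iff₀ hden]
      calc _ ≤ _ := hgr n x
        _ = _ := by ring
    rw [dist_comm, Real.dist_eq, h1]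
    calc |Real.log t| ≤ |t - 1| / c := pf_log hc hc1 h2
      _ ≤ C ^ 4 * θ ^ n / c := div_le_div_of_nonneg_right h3 hc.le
      _ = C ^ 8 * θ ^ n := by rw [hcρ]; field_simp
  have hlim : ∀ x, ∃ a, Tendsto (fun n => ℓ n x) atTop (𝓝 a) := fun x =>
    cauchySeq_tendsto_of_complete (cauchySeq_of_le_geometric θ (C ^ 8) hθ1 (fun n => hd n x))
  choose L hL using hlim
  have hLd : ∀ n x, |ℓ n x - L x| ≤ C ^ 8 / (1 - θ) * θ ^ n := by
    intro n x
    have := dist_le_of_le_geometric_of_tendsto θ (C ^ 8) hθ1 (fun n => hd n x) (hL x) n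
    rw [Real.dist_eq] at this
    calc _ ≤ _ := this
      _ = _ := by ring
  set D : ℝ := C ^ 8 / (1 - θ) with hD
  have hD0 : 0 < D := div_pos (by positivity) (by linarith)
  set V : ι → ℝ := fun x => Real.exp (L x) with hV
  have hVpos : ∀ x, 0 < V x := fun x => Real.exp_pos _
  have hθn : ∀ n : ℕ, 0 < θ ^ n ∧ θ ^ n ≤ 1 := fun n => ⟨by positivity, pow_le_one₀ hθ0.le hθ1.le⟩
  set D' : ℝ := D * Real.exp D with hD'
  have hD'0 : 0 < D' := by positivity
  have hgV : ∀ n x, |A (n + 1) x y₀ - ρ ^ (n + 1) * V x| ≤ D' * θ ^ n * (ρ ^ (n + 1) * V x) := by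
    intro n x
    have h1 : A (n + 1) x y₀ - ρ ^ (n + 1) * V x =
        ρ ^ (n + 1) * V x * (Real.exp (ℓ n x - L x) - 1) := by
      rw [hℓexp n x, hV]
      simp only
      rw [Real.exp_sub]
      have := Real.exp_pos (L x)
      field_simp
    have h2 : 0 < ρ ^ (n + 1) * V x := mul_pos (by positivity) (hVpos x)
    rw [h1, abs_mul, abs_of_pos h2, mul_comm]
    refine mul_le_mul_of_nonneg_right ?_ h2.le
    have h3 : |ℓ n x - L x| ≤ D := (hLd n x).trans (mul_le_of_le_one_right hD0.le (hθn n).2)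
    calc |Real.exp (ℓ n x - L x) - 1| ≤ |ℓ n x - L x| * Real.exp |ℓ n x - L x| := pf_exp _
      _ ≤ (D * θ ^ n) * Real.exp D := by
          refine mul_le_mul (hLd n x) (Real.exp_le_exp.2 h3) (Real.exp_pos _).le ?_
          exact mul_nonneg hD0.le (hθn n).1.le
      _ = D' * θ ^ n := by rw [hD']; ring
  set E : ℝ := C ^ 4 * (1 + D') + D' with hE
  have hE0 : 0 < E := by positivity
  have hasy : ∀ n x y, |A (n + 1) x y - ρ ^ (n + 1) * (V x * W y)| ≤
      E * θ ^ n * (ρ ^ (n + 1) * (V x * W y)) := by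
    intro n x y
    have h1 := hW3 y n x
    have h2 := hgV n x
    have hRV : 0 < ρ ^ (n + 1) * V x := mul_pos (by positivity) (hVpos x)
    have h3 : A (n + 1) x y₀ ≤ (1 + D') * (ρ ^ (n + 1) * V x) := by
      have h4 := (abs_le.1 h2).2
      have h5 : D' * θ ^ n * (ρ ^ (n + 1) * V x) ≤ D' * (ρ ^ (n + 1) * V x) := by
        refine mul_le_mul_of_nonneg_right ?_ hRV.le
        exact mul_le_of_le_one_right hD'0.le (hθn n).2
      linarith
    have h4 : |A (n + 1) x y - ρ ^ (n + 1) * (V x * W y)| ≤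
        |A (n + 1) x y - W y * A (n + 1) x y₀| +
        W y * |A (n + 1) x y₀ - ρ ^ (n + 1) * V x| := by
      have h5 : A (n + 1) x y - ρ ^ (n + 1) * (V x * W y) =
          (A (n + 1) x y - W y * A (n + 1) x y₀) +
          W y * (A (n + 1) x y₀ - ρ ^ (n + 1) * V x) := by ring
      rw [h5]
      refine (abs_add_le _ _).trans ?_
      rw [abs_mul, abs_of_nonneg (hW0 y)]
    refine h4.trans ?_
    have h5 : C ^ 4 * W y * θ ^ n * A (n + 1) x y₀ ≤
        C ^ 4 * W y * θ ^ n * ((1 + D') * (ρ ^ (n + 1) * V x)) := by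
      refine mul_le_mul_of_nonneg_left h3 ?_
      exact mul_nonneg (mul_nonneg (by positivity) (hW0 y)) (hθn n).1.le
    have h6 := mul_le_mul_of_nonneg_left h2 (hW0 y)
    calc _ ≤ C ^ 4 * W y * θ ^ n * ((1 + D') * (ρ ^ (n + 1) * V x)) +
          W y * (D' * θ ^ n * (ρ ^ (n + 1) * V x)) := add_le_add (h1.trans h5) h6
      _ = E * θ ^ n * (ρ ^ (n + 1) * (V x * W y)) := by rw [hE]; ring
  -- boundedness
  have hVbd : ∀ x, V x ≤ Real.exp D * (C * (C * β y₀)) / ρ := by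
    intro x
    have h1 : L x ≤ ℓ 0 x + D := by
      have := (abs_le.1 (hLd 0 x)).1
      simp only [pow_zero, mul_one] at this
      linarith
    have h2 : A 1 x y₀ = ρ * Real.exp (ℓ 0 x) := by
      have := hℓexp 0 x
      simpa using this
    have h3 : A 1 x y₀ ≤ C * (C * β y₀) :=
      (hu x y₀).trans (mul_le_mul_of_nonneg_left
        (mul_le_mul_of_nonneg_right (hα x).2 hy₀.le) hC0.le)
    rw [le_div_iff₀ hρ]
    calc V x * ρ ≤ Real.exp (ℓ 0 x + D) * ρ :=
          mul_le_mul_of_nonneg_right (Real.exp_le_exp.2 h1) hρ.le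
      _ = Real.exp D * A 1 x y₀ := by rw [h2, Real.exp_add]; ring
      _ ≤ _ := mul_le_mul_of_nonneg_left h3 (Real.exp_pos _).le
  have hWV : Summable fun x => W x * V x := by
    refine Summable.of_nonneg_of_le (fun x => mul_nonneg (hW0 x) (hVpos x).le) (fun x => ?_)
      (hWs.mul_right (Real.exp D * (C * (C * β y₀)) / ρ))
    exact mul_le_mul_of_nonneg_left (hVbd x) (hW0 x)
  -- normalization
  set P : ℝ := ∑' x, W x * V x with hP
  have hP0 : 0 ≤ P := tsum_nonneg fun x => mul_nonneg (hW0 x) (hVpos x).le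
  have hN : 0 < V y₀ * W y₀ := mul_pos (hVpos y₀) hWy₀
  have htend : Tendsto (fun n : ℕ => E * θ ^ n) atTop (𝓝 0) := by
    simpa using (tendsto_pow_atTop_nhds_zero_of_lt_one hθ0.le hθ1).const_mul E
  have htend2 : Tendsto (fun n : ℕ => E * θ ^ (2 * n + 1)) atTop (𝓝 0) := by
    refine htend.comp (tendsto_atTop_mono (fun n => ?_) tendsto_id)
    simp only [id]
    omega
  have hmul2 : ∀ n, HasSum (fun y => A (n + 1) y₀ y * A (n + 1) y y₀) (A (2 * n + 1 + 1) y₀ y₀) := by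
    intro n
    have := hmul (n + 1) (n + 1) (by omega) (by omega) y₀ y₀
    rwa [show n + 1 + (n + 1) = 2 * n + 1 + 1 by ring] at this
  have hsumP : ∀ n (a : ℝ), HasSum (fun y => a ^ 2 * (ρ ^ (n + 1) * (V y₀ * W y) *
      (ρ ^ (n + 1) * (V y * W y₀)))) (a ^ 2 * P * (ρ ^ (2 * n + 1 + 1) * (V y₀ * W y₀))) := by
    intro n a
    have := hWV.hasSum.mul_left (a ^ 2 * (ρ ^ (2 * n + 1 + 1) * (V y₀ * W y₀)))
    rw [← hP] at this
    rw [show a ^ 2 * P * (ρ ^ (2 * n + 1 + 1) * (V y₀ * W y₀)) =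
      a ^ 2 * (ρ ^ (2 * n + 1 + 1) * (V y₀ * W y₀)) * P by ring]
    exact this.congr_fun (fun y => by ring)
  have hX0 : ∀ n x y, 0 ≤ ρ ^ (n + 1) * (V x * W y) := fun n x y =>
    mul_nonneg (by positivity) (mul_nonneg (hVpos x).le (hW0 y))
  have hXp : ∀ n, 0 < ρ ^ (n + 1) * (V y₀ * W y₀) := fun n => mul_pos (by positivity) hN
  have hAup : ∀ n x y, A (n + 1) x y ≤ (1 + E * θ ^ n) * (ρ ^ (n + 1) * (V x * W y)) := by
    intro n x y
    have := (abs_le.1 (hasy n x y)).2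
    linarith
  have hAdn : ∀ n x y, (1 - E * θ ^ n) * (ρ ^ (n + 1) * (V x * W y)) ≤ A (n + 1) x y := by
    intro n x y
    have := (abs_le.1 (hasy n x y)).1
    linarith
  have hup : ∀ n, 1 - E * θ ^ (2 * n + 1) ≤ (1 + E * θ ^ n) ^ 2 * P := by
    intro n
    have h1 : A (2 * n + 1 + 1) y₀ y₀ ≤
        (1 + E * θ ^ n) ^ 2 * P * (ρ ^ (2 * n + 1 + 1) * (V y₀ * W y₀)) := by
      refine hasSum_le (fun y => ?_) (hmul2 n) (hsumP n (1 + E * θ ^ n))
      have ha : 0 ≤ 1 + E * θ ^ n := by have := (hθn n).1; positivity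
      calc A (n + 1) y₀ y * A (n + 1) y y₀
          ≤ ((1 + E * θ ^ n) * (ρ ^ (n + 1) * (V y₀ * W y))) *
            ((1 + E * θ ^ n) * (ρ ^ (n + 1) * (V y * W y₀))) :=
            mul_le_mul (hAup n y₀ y) (hAup n y y₀) (hA0 n y y₀)
              (mul_nonneg ha (hX0 n y₀ y))
        _ = _ := by ring
    have h2 := (hAdn (2 * n + 1) y₀ y₀).trans h1
    exact le_of_mul_le_mul_right h2 (hXp (2 * n + 1))
  have hdn : ∀ᶠ n in atTop, (1 - E * θ ^ n) ^ 2 * P ≤ 1 + E * θ ^ (2 * n + 1) := by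
    filter_upwards [htend.eventually (gt_mem_nhds one_pos)] with n hn
    have h1 : (1 - E * θ ^ n) ^ 2 * P * (ρ ^ (2 * n + 1 + 1) * (V y₀ * W y₀)) ≤
        A (2 * n + 1 + 1) y₀ y₀ := by
      refine hasSum_le (fun y => ?_) (hsumP n (1 - E * θ ^ n)) (hmul2 n)
      have ha : 0 ≤ 1 - E * θ ^ n := by linarith
      calc _ = ((1 - E * θ ^ n) * (ρ ^ (n + 1) * (V y₀ * W y))) *
            ((1 - E * θ ^ n) * (ρ ^ (n + 1) * (V y * W y₀))) := by ring
        _ ≤ A (n + 1) y₀ y * A (n + 1) y y₀ :=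
            mul_le_mul (hAdn n y₀ y) (hAdn n y y₀) (mul_nonneg ha (hX0 n y y₀)) (hA0 n y₀ y)
    have h2 := h1.trans (hAup (2 * n + 1) y₀ y₀)
    exact le_of_mul_le_mul_right h2 (hXp (2 * n + 1))
  have hP1 : P = 1 := by
    refine le_antisymm ?_ ?_
    · have h1 : Tendsto (fun n : ℕ => (1 - E * θ ^ n) ^ 2 * P) atTop (𝓝 ((1 - 0) ^ 2 * P)) :=
        ((htend.const_sub 1).pow 2).mul_const P
      have h2 : Tendsto (fun n : ℕ => 1 + E * θ ^ (2 * n + 1)) atTop (𝓝 (1 + 0)) :=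
        htend2.const_add 1
      have := le_of_tendsto_of_tendsto h1 h2 hdn
      simpa using this
    · have h1 : Tendsto (fun n : ℕ => (1 + E * θ ^ n) ^ 2 * P) atTop (𝓝 ((1 + 0) ^ 2 * P)) :=
        ((htend.const_add 1).pow 2).mul_const P
      have h2 : Tendsto (fun n : ℕ => 1 - E * θ ^ (2 * n + 1)) atTop (𝓝 (1 - 0)) :=
        htend2.const_sub 1
      have := le_of_tendsto_of_tendsto h2 h1 (Eventually.of_forall hup)
      simpa using this
  refine ⟨ρ, V, W, hρ, hVpos, ⟨_, hVbd⟩, hW0, hWs, hP1, ⟨E / θ, θ, by positivity, hθ0.le, hθ1, ?_⟩⟩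
  intro n hn x y
  obtain ⟨k, rfl⟩ : ∃ k, n = k + 1 := ⟨n - 1, by omega⟩
  have h1 := hasy k x y
  have h2 : E / θ * θ ^ (k + 1) = E * θ ^ k := by
    field_simp
    ring
  rw [h2]
  exact h1

end Pool.Agent.Helper12.GM
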